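import Pool.Agent.Helper23.PL.Defs
import Pool.Agent.Helper71.QU.Girth

/-!
# PL-5a, PL-5b, PL-5c: graphs of cheap walks without bypasses, separated families, few big balls
-/

set_option autoImplicit false

open Set
open Pool.Agent.Helper83.OP Pool.Agent.Helper93.HH Pool.Agent.Helper23.PL

namespace Pool.Agent.Helper77.PL

section

variable {V P Q : Type} [Finite V] [Finite P] [Finite Q] {D : HD V P Q} {k k1 k2 : ℕ}

omit [Finite V] [Finite P] [Finite Q] in
private theorem rch_trans {F : Set (Sym2 V)} {t t' : ℕ} {u v w : V} (h : Rch D F t u v)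
    (h' : Rch D F t' v w) : Rch D F (t + t') u w := by
  obtain ⟨W, hW, hc⟩ := h
  obtain ⟨W', hW', hc'⟩ := h'
  refine ⟨W.append W', ?_, ?_⟩
  · intro f hf
    rw [SimpleGraph.Walk.edges_append, List.mem_append] at hf
    exact hf.elim (hW f) (hW' f)
  · unfold cw at hc hc' ⊢
    rw [SimpleGraph.Walk.length_append, SimpleGraph.Walk.support_append, List.map_append,
      List.sum_append]
    have h1 : W'.support = v :: W'.support.tail := (SimpleGraph.Walk.cons_tail_support W').symm
    rw [h1, List.map_cons, List.sum_cons] at hc'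
    omega

omit [Finite V] [Finite P] [Finite Q] in
private theorem rch_mono {F : Set (Sym2 V)} {t t' : ℕ} {u v : V} (h : Rch D F t u v)
    (ht : t ≤ t') : Rch D F t' u v := by
  obtain ⟨W, hW, hc⟩ := h
  exact ⟨W, hW, hc.trans ht⟩

omit [Finite V] [Finite P] [Finite Q] in
private theorem rch_chain {t0 : ℕ} {Γ : SimpleGraph V} {F : Set (Sym2 V)} {f : Sym2 V}
    (h : ∀ u v, Γ.Adj u v → s(u, v) ≠ f → Rch D F t0 u v) {v u : V} (W : Γ.Walk v u) :
    ¬ W.Nil → (∀ f' ∈ W.edges, f' ≠ f) → Rch D F (W.length * t0) v u := by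
  induction W with
  | nil => intro h0; exact absurd SimpleGraph.Walk.Nil.nil h0
  | cons hadj W ih =>
    intro _ hf
    have h1 := h _ _ hadj (hf _ (by simp))
    cases W with
    | nil => simpa using h1
    | cons hadj' W' =>
      have h2 := ih SimpleGraph.Walk.not_nil_cons (fun f' hf' => hf f' (by
        rw [SimpleGraph.Walk.edges_cons]
        exact List.mem_cons_of_mem _ hf'))
      refine rch_mono (rch_trans h1 h2) ?_
      rw [SimpleGraph.Walk.length_cons (h := hadj)]
      have : ((SimpleGraph.Walk.cons hadj' W').length + 1) * t0 =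
        t0 + (SimpleGraph.Walk.cons hadj' W').length * t0 := by ring
      omega

/-- **PL-5a (girthG).** A graph whose edges are walks of cost `t0`, without cheap bypasses, has few edges. -/
theorem girthG (t0 g t : ℕ) (Γ : SimpleGraph V) (F : Sym2 V → Set (Sym2 V))
    (h : ∀ f ∈ Γ.edgeSet, ∀ u v, Γ.Adj u v → s(u, v) ≠ f → Rch D (F f) t0 u v)
    (hno : ∀ u v, Γ.Adj u v → ¬ Rch D (F s(u, v)) (g * t0) v u)
    (C : Set V) (hC : ∀ a b, Γ.Adj a b → a ∈ C)
    (ht : 10 ^ t * Nat.card V < 11 ^ t) (hg : 8 * t + 2 ≤ g) :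
    10 * Γ.edgeSet.ncard ≤ 11 * C.ncard := by
  rcases C.eq_empty_or_nonempty with h0 | h0
  · have h1 : Γ.edgeSet = ∅ := by
      rw [Set.eq_empty_iff_forall_notMem]
      intro f hf
      induction f using Sym2.ind with
      | _ a b =>
        have h2 := hC a b hf
        rw [h0] at h2
        exact h2
    rw [h1]
    simp
  · have h1 := Pool.Agent.Helper71.QU.girth_bound t ht C.ncard Γ C rfl hC (by
      intro u Z hZ
      by_contra hlen
      push Not at hlen
      cases Z with
      | nil => exact absurd hZ (by simp)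
      | cons hadj W =>
        rename_i v
        have h2 := (SimpleGraph.Walk.cons_isCycle_iff W hadj).1 hZ
        refine hno u v hadj ?_
        have h3 : ¬ W.Nil := by
          intro h4
          exact hadj.ne h4.eq.symm
        refine rch_mono (rch_chain (h s(u, v) hadj) W h3 ?_) ?_
        · rintro f' hf' rfl
          exact h2.2 hf'
        · rw [SimpleGraph.Walk.length_cons] at hlen
          exact Nat.mul_le_mul_right _ (by omega)) h0
    omega

/-- **PL-5b.** Maximal separated families. -/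
theorem exists_sep (D : HD V P Q) (B : Set P) (R : ℕ) : ∃ C : Set P, C ⊆ B ∧
    (∀ p ∈ C, ∀ p' ∈ C, p ≠ p' → ¬ Nr D.N R (D.x p) (D.x p')) ∧
    ∀ p ∈ B, ∃ c ∈ C, Nr D.N R (D.x p) (D.x c) := by
  classical
  let S : Set (Set P) := {C | C ⊆ B ∧ ∀ p ∈ C, ∀ p' ∈ C, p ≠ p' → ¬ Nr D.N R (D.x p) (D.x p')}
  have hS : S.Finite := Set.toFinite _
  have hne : S.Nonempty := ⟨∅, Set.empty_subset _, fun p hp => absurd hp (Set.notMem_empty _)⟩
  obtain ⟨C, hC⟩ := hS.exists_maximal hne
  obtain ⟨hCB, hCs⟩ := hC.prop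
  refine ⟨C, hCB, hCs, ?_⟩
  intro p hp
  by_contra hcon
  push Not at hcon
  have hins : insert p C ∈ S := by
    refine ⟨Set.insert_subset hp hCB, ?_⟩
    intro a ha b hb hab
    rcases ha with rfl | ha
    · rcases hb with rfl | hb
      · exact absurd rfl hab
      · exact hcon b hb
    · rcases hb with rfl | hb
      · exact fun hn => hcon a ha hn.symm
      · exact hCs a ha b hb hab
  have h1 : insert p C ≤ C := hC.le_of_ge hins (Set.subset_insert _ _)
  exact hcon p (h1 (Set.mem_insert _ _)) (Nr.refl _ _ _)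

/-- **PL-5c.** Few big balls. -/
theorem big_few (D : HD V P Q) (R : ℕ) (C : Set P)
    (hsep : ∀ p ∈ C, ∀ p' ∈ C, p ≠ p' → ¬ Nr D.N (2 * R) (D.x p) (D.x p'))
    (hbig : ∀ p ∈ C, k2 < bv D (D.ball R (D.x p))) : (k2 + 1) * C.ncard ≤ (Vb D).ncard := by
  classical
  let S : P → Finset V := fun p => (Set.toFinite (D.ball R (D.x p) ∩ Vb D)).toFinset
  let CF : Finset P := (Set.toFinite C).toFinset
  have hdisj : (CF : Set P).PairwiseDisjoint S := by
    intro p hp p' hp' hne
    rw [Function.onFun, Finset.disjoint_left]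
    intro v hv hv'
    rw [Set.Finite.mem_toFinset] at hv hv'
    have hpC : p ∈ C := by simpa [CF] using hp
    have hpC' : p' ∈ C := by simpa [CF] using hp'
    refine hsep p hpC p' hpC' hne ?_
    have h1 : Nr D.N R (D.x p) v := hv.1
    have h2 : Nr D.N R (D.x p') v := hv'.1
    have h3 := h1.trans h2.symm
    rwa [← Nat.two_mul] at h3
  have h1 : (CF.biUnion S).card ≤ (Vb D).ncard := by
    rw [Set.ncard_eq_toFinset_card _ (Set.toFinite _)]
    refine Finset.card_le_card ?_
    intro v hv
    obtain ⟨p, -, hp⟩ := Finset.mem_biUnion.1 hv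
    rw [Set.Finite.mem_toFinset] at hp ⊢
    exact hp.2
  rw [Finset.card_biUnion (fun p hp p' hp' hne => hdisj hp hp' hne)] at h1
  refine le_trans ?_ h1
  have h2 : C.ncard = CF.card := Set.ncard_eq_toFinset_card _ (Set.toFinite _)
  rw [h2, Nat.mul_comm, ← smul_eq_mul]
  refine Finset.card_nsmul_le_sum _ _ _ ?_
  intro p hp
  have hpC : p ∈ C := by simpa [CF] using hp
  have h3 := hbig p hpC
  unfold bv at h3
  rw [Set.ncard_eq_toFinset_card _ (Set.toFinite _)] at h3
  exact h3

end

end Pool.Agent.Helper77.PL
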